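import Pool.Agent.Helper1.ES.Defs
import Pool.Agent.Helper1.ES.St.N4m

/-!
ES-Q3.  Trivial bound: `Ad ≤ 2^j/(m d) + 1` if `gcd(d,m) = 1` (one residue class modulo `m d`), `Ad = 0`
otherwise.  So the sum is `≤ 2^j/m (∑_{D1 < d ≤ y} Λ(d)/d) + ∑_{d ≤ y} Λ(d)` with `y = ⌊2^{j+1}/m⌋`;
by `mertens_L` (two-sided) the first sum is `≤ log (y/D1) + 2 C`, `y / D1 ≤ 4 (z+1)^{32(1+Nat.log 2 z)}`
(`D1 ≥ 1`, floor loses at most a factor `2`), whose log is `O((1 + log n)^2)`; the second is `≤ C y ≤ 2 C 2^j/m`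
(Chebyshev).
-/

set_option autoImplicit false

namespace Pool.Agent.Helper1.ES.Z

open Finset

private theorem q3_count (S : Finset ℕ) (a H r : ℕ) (hr : 0 < r)
    (hS : ∀ q ∈ S, a < q ∧ q ≤ a + H) (hc : ∀ q ∈ S, ∀ q' ∈ S, q ≡ q' [MOD r]) :
    S.card ≤ H / r + 1 := by
  have h1 : (S.image (fun q => (q - (a + 1)) / r)) ⊆ range (H / r + 1) := by
    intro x hx
    obtain ⟨q, hq, rfl⟩ := mem_image.1 hx
    have h2 := hS q hq
    rw [mem_range, Nat.lt_succ_iff]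
    exact Nat.div_le_div_right (by omega)
  have h2 : (S.image (fun q => (q - (a + 1)) / r)).card = S.card := by
    apply card_image_of_injOn
    intro q hq q' hq' h
    have hq := Finset.mem_coe.1 hq
    have hq' := Finset.mem_coe.1 hq'
    have h3 := hS q hq
    have h4 := hS q' hq'
    obtain ⟨x, rfl⟩ : ∃ x, q = (a + 1) + x := ⟨q - (a + 1), by omega⟩
    obtain ⟨x', rfl⟩ : ∃ x', q' = (a + 1) + x' := ⟨q' - (a + 1), by omega⟩
    have h5 : x ≡ x' [MOD r] := Nat.ModEq.add_left_cancel' (a + 1) (hc _ hq _ hq')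
    have h6 : x / r = x' / r := by
      simpa using h
    have h7 : x % r = x' % r := h5
    have h8 := Nat.div_add_mod x r
    have h9 := Nat.div_add_mod x' r
    rw [h6, h7] at h8
    omega
  calc S.card = (S.image (fun q => (q - (a + 1)) / r)).card := h2.symm
    _ ≤ (range (H / r + 1)).card := card_le_card h1
    _ = H / r + 1 := card_range _

private theorem q3_Ad (m z j d : ℕ) (hm : 0 < m) (hd : 0 < d) :
    (Ad m z j d : ℝ) ≤ (2 : ℝ) ^ j / m / d + 1 := by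
  have h1 : Ad m z j d ≤ 2 ^ j / (m * d) + 1 := by
    unfold Ad
    by_cases hne : ((AA m z j).filter (fun q => d ∣ q)).card = 0
    · rw [hne]
      exact Nat.zero_le _
    · apply q3_count _ (2 ^ j) (2 ^ j) (m * d) (Nat.mul_pos hm hd)
      · intro q hq
        have h2 := (mem_AA.1 (mem_filter.1 hq).1).1
        rw [pow_succ] at h2
        omega
      · intro q hq q' hq'
        have h2 := mem_filter.1 hq
        have h3 := mem_filter.1 hq'
        have h4 := (mem_AA.1 h2.1).2.1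
        have h5 := (mem_AA.1 h3.1).2.1
        have hcop : Nat.Coprime m d := by
          rw [Nat.coprime_iff_gcd_eq_one]
          have h6 : Nat.gcd m d ∣ q := (Nat.gcd_dvd_right m d).trans h2.2
          have h7 : Nat.gcd m d ∣ q + 1 := (Nat.gcd_dvd_left m d).trans h4
          exact Nat.dvd_one.1 ((Nat.dvd_add_right h6).1 h7)
        rw [← Nat.modEq_and_modEq_iff_modEq_mul hcop]
        constructor
        · have h8 : q + 1 ≡ q' + 1 [MOD m] :=
            ((Nat.modEq_zero_iff_dvd).2 h4).trans ((Nat.modEq_zero_iff_dvd).2 h5).symm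
          exact Nat.ModEq.add_right_cancel' 1 h8
        · exact ((Nat.modEq_zero_iff_dvd).2 h2.2).trans ((Nat.modEq_zero_iff_dvd).2 h3.2).symm
  calc (Ad m z j d : ℝ) ≤ ((2 ^ j / (m * d) + 1 : ℕ) : ℝ) := by exact_mod_cast h1
    _ = ((2 ^ j / (m * d) : ℕ) : ℝ) + 1 := by push_cast; ring
    _ ≤ ((2 ^ j : ℕ) : ℝ) / ((m * d : ℕ) : ℝ) + 1 := by
        have := @Nat.cast_div_le ℝ _ _ _ (2 ^ j) (m * d)
        linarith
    _ = (2 : ℝ) ^ j / m / d + 1 := by
        push_cast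
        rw [div_div]

private theorem q3_logQ (n : ℕ) (hn : 1 ≤ n) :
    Real.log (((n ^ 16 + 1) ^ (32 * (1 + Nat.log 2 (n ^ 16))) : ℕ) : ℝ) ≤
      12288 * (1 + Real.log n) ^ 2 := by
  have hn0 : (1 : ℝ) ≤ n := by exact_mod_cast hn
  have hL : 0 ≤ Real.log n := Real.log_nonneg hn0
  have hl2 := Real.log_two_gt_d9
  have hl2' := Real.log_two_lt_d9
  have h1 : (Nat.log 2 (n ^ 16) : ℝ) ≤ 24 * Real.log n := by
    have h2 : 2 ^ Nat.log 2 (n ^ 16) ≤ n ^ 16 := Nat.pow_log_le_self 2 (by positivity)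
    have h3 : ((2 : ℝ)) ^ Nat.log 2 (n ^ 16) ≤ (n : ℝ) ^ 16 := by exact_mod_cast h2
    have h4 := Real.log_le_log (by positivity) h3
    rw [Real.log_pow, Real.log_pow] at h4
    push_cast at h4
    have h5 : (0 : ℝ) ≤ Nat.log 2 (n ^ 16) := Nat.cast_nonneg _
    nlinarith
  have h2 : Real.log ((n : ℝ) ^ 16 + 1) ≤ 16 * (1 + Real.log n) := by
    have h3 : (n : ℝ) ^ 16 + 1 ≤ 2 * (n : ℝ) ^ 16 := by
      have : (1 : ℝ) ≤ (n : ℝ) ^ 16 := one_le_pow₀ hn0
      linarith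
    have h4 := Real.log_le_log (by positivity) h3
    rw [Real.log_mul (by norm_num) (by positivity), Real.log_pow] at h4
    push_cast at h4
    linarith
  have h3 : 0 ≤ Real.log ((n : ℝ) ^ 16 + 1) := Real.log_nonneg (by
    have : (0 : ℝ) ≤ (n : ℝ) ^ 16 := by positivity
    linarith)
  rw [Nat.cast_pow, Real.log_pow]
  push_cast
  have h4 : (32 : ℝ) * (1 + (Nat.log 2 (n ^ 16) : ℝ)) ≤ 768 * (1 + Real.log n) := by linarith
  calc (32 : ℝ) * (1 + (Nat.log 2 (n ^ 16) : ℝ)) * Real.log ((n : ℝ) ^ 16 + 1)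
      ≤ (768 * (1 + Real.log n)) * (16 * (1 + Real.log n)) := by
        apply mul_le_mul h4 h2 h3
        positivity
    _ = 12288 * (1 + Real.log n) ^ 2 := by ring

theorem q3_big : ∃ n₀ : ℕ, 1 ≤ n₀ ∧ ∀ n : ℕ, n₀ ≤ n →
    (n ^ 16 + 1) ^ (32 * (1 + Nat.log 2 (n ^ 16))) ≤ 2 ^ (35 * n) := by
  have h1 := (Real.isLittleO_pow_log_id_atTop (n := 2)).def
    (show (0 : ℝ) < 1 / 4096 by norm_num)
  have h2 := tendsto_natCast_atTop_atTop.eventually h1
  obtain ⟨N, hN⟩ := Filter.eventually_atTop.1 h2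
  refine ⟨max N 3, le_trans (by norm_num) (le_max_right _ _), fun n hn => ?_⟩
  have hn3 : 3 ≤ n := le_trans (le_max_right _ _) hn
  have hnN := hN n (le_trans (le_max_left _ _) hn)
  have h3 : (3 : ℝ) ≤ n := by exact_mod_cast hn3
  have hL1 : 1 ≤ Real.log n := by
    rw [Real.le_log_iff_exp_le (by linarith)]
    have := Real.exp_one_lt_d9
    linarith
  have h4 : Real.log n ^ 2 ≤ 1 / 4096 * n := by
    have h5 : ‖Real.log (n : ℝ) ^ 2‖ = Real.log n ^ 2 := by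
      rw [Real.norm_eq_abs, abs_of_nonneg (by positivity)]
    have h6 : ‖id (n : ℝ)‖ = n := by
      rw [id, Real.norm_eq_abs, abs_of_nonneg (by linarith)]
    rw [h5, h6] at hnN
    exact hnN
  have h5 := q3_logQ n (by omega)
  have h6 : (1 + Real.log n) ^ 2 ≤ 4 * Real.log n ^ 2 := by nlinarith
  have hl2 := Real.log_two_gt_d9
  have h7 : Real.log (((n ^ 16 + 1) ^ (32 * (1 + Nat.log 2 (n ^ 16))) : ℕ) : ℝ) ≤
      Real.log (((2 ^ (35 * n) : ℕ)) : ℝ) := by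
    rw [Nat.cast_pow 2, Real.log_pow]
    push_cast at h5 ⊢
    nlinarith
  have h8 := (Real.log_le_log_iff (by positivity) (by positivity)).1 h7
  exact_mod_cast h8

theorem middle_d : ∃ C n₀ : ℕ, 1 ≤ C ∧ ∀ n : ℕ, n₀ ≤ n → ∀ j : ℕ, 40 * n ≤ j → j < 80 * n →
    ∀ m : ℕ, 2 ≤ m → m ≤ 2 ^ (5 * n) →
    ∑ d ∈ Ioc (D1 m (n ^ 16) j) (2 ^ (j + 1) / m),
      ArithmeticFunction.vonMangoldt d * (Ad m (n ^ 16) j d : ℝ) ≤
      (2 : ℝ) ^ j / m * (C * (1 + Real.log n) ^ 2) := by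
  obtain ⟨Cm, hCm, hM⟩ := mertens_L
  obtain ⟨n₀, hn₀, hbig⟩ := q3_big
  refine ⟨⌈12302 + 2 * Cm⌉₊ + 1, n₀, by omega, ?_⟩
  intro n hn j hj1 hj2 m hm1 hm2
  have hn1 : 1 ≤ n := le_trans hn₀ hn
  have hL : 0 ≤ Real.log n := Real.log_nonneg (by exact_mod_cast hn1)
  obtain ⟨Q, hQ⟩ : ∃ Q, Q = (n ^ 16 + 1) ^ (32 * (1 + Nat.log 2 (n ^ 16))) := ⟨_, rfl⟩
  have hQ1 : 1 ≤ Q := by
    rw [hQ]
    exact Nat.one_le_pow _ _ (by omega)
  have hQb : Q ≤ 2 ^ (35 * n) := by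
    rw [hQ]
    exact hbig n hn
  have hlogQ : Real.log (Q : ℝ) ≤ 12288 * (1 + Real.log n) ^ 2 := by
    rw [hQ]
    exact q3_logQ n hn1
  have hD : D1 m (n ^ 16) j = 2 ^ j / (m * Q) := by
    unfold D1
    rw [hQ]
  rw [hD]
  obtain ⟨D, hDd⟩ : ∃ D, D = 2 ^ j / (m * Q) := ⟨_, rfl⟩
  obtain ⟨y, hy⟩ : ∃ y, y = 2 ^ (j + 1) / m := ⟨_, rfl⟩
  rw [← hDd, ← hy]
  have hmpos : 0 < m := by omega
  have hmQpos : 0 < m * Q := Nat.mul_pos hmpos hQ1
  have hmQ : m * Q ≤ 2 ^ j := by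
    calc m * Q ≤ 2 ^ (5 * n) * 2 ^ (35 * n) := Nat.mul_le_mul hm2 hQb
      _ = 2 ^ (40 * n) := by rw [← pow_add]; congr 1; ring
      _ ≤ 2 ^ j := Nat.pow_le_pow_right (by norm_num) hj1
  have hD1 : 1 ≤ D := by
    rw [hDd]
    exact (Nat.one_le_div_iff hmQpos).2 hmQ
  have hpow : 2 ^ (j + 1) = 2 * 2 ^ j := by rw [pow_succ]; ring
  have hlt : 2 ^ j < 2 * D * (m * Q) := by
    have h1 : 2 ^ j < (D + 1) * (m * Q) := by
      rw [hDd]
      have := Nat.lt_div_mul_add (a := 2 ^ j) hmQpos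
      linarith
    have h2 : (D + 1) * (m * Q) ≤ 2 * D * (m * Q) := Nat.mul_le_mul_right _ (by omega)
    omega
  have hDy : D ≤ y := by
    rw [hy, Nat.le_div_iff_mul_le hmpos]
    have h1 : D * (m * Q) ≤ 2 ^ j := by
      rw [hDd]
      exact Nat.div_mul_le_self _ _
    have h2 : D * m ≤ D * (m * Q) := Nat.mul_le_mul_left _ (Nat.le_mul_of_pos_right _ hQ1)
    omega
  have hyQ : y ≤ 4 * Q * D := by
    have h1 : y * m ≤ 2 ^ (j + 1) := by
      rw [hy]
      exact Nat.div_mul_le_self _ _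
    have h2 : y * m < (4 * Q * D) * m := by
      calc y * m ≤ 2 * 2 ^ j := by rw [← hpow]; exact h1
        _ < 2 * (2 * D * (m * Q)) := by omega
        _ = (4 * Q * D) * m := by ring
    exact (lt_of_mul_lt_mul_right h2 (Nat.zero_le _)).le
  have hmR : (0 : ℝ) < m := by exact_mod_cast hmpos
  have hX : (0 : ℝ) < (2 : ℝ) ^ j / m := by positivity
  have hyX : (y : ℝ) ≤ 2 * ((2 : ℝ) ^ j / m) := by
    have h1 : y * m ≤ 2 * 2 ^ j := by
      rw [← hpow, hy]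
      exact Nat.div_mul_le_self _ _
    have h2 : (y : ℝ) * m ≤ 2 * (2 : ℝ) ^ j := by exact_mod_cast h1
    rw [mul_div_assoc', le_div_iff₀ hmR]
    exact h2
  have hsum1 : ∑ d ∈ Ioc D y, ArithmeticFunction.vonMangoldt d * (Ad m (n ^ 16) j d : ℝ) ≤
      (2 : ℝ) ^ j / m * ∑ d ∈ Ioc D y, ArithmeticFunction.vonMangoldt d / d +
        ∑ d ∈ Ioc D y, ArithmeticFunction.vonMangoldt d := by
    rw [mul_sum, ← sum_add_distrib]
    refine sum_le_sum fun d hd => ?_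
    have hd0 : 0 < d := by
      have := (mem_Ioc.1 hd).1
      omega
    have h1 := q3_Ad m (n ^ 16) j d hmpos hd0
    have h2 : 0 ≤ ArithmeticFunction.vonMangoldt d := ArithmeticFunction.vonMangoldt_nonneg
    calc ArithmeticFunction.vonMangoldt d * (Ad m (n ^ 16) j d : ℝ)
        ≤ ArithmeticFunction.vonMangoldt d * ((2 : ℝ) ^ j / m / d + 1) :=
          mul_le_mul_of_nonneg_left h1 h2
      _ = _ := by ring
  have hIcc : ∀ x : ℕ, Icc 1 x = Ioc 0 x := by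
    intro x
    ext t
    simp only [mem_Icc, mem_Ioc]
    omega
  have hsum2 : ∑ d ∈ Ioc D y, ArithmeticFunction.vonMangoldt d / (d : ℝ) ≤
      Real.log 4 + 12288 * (1 + Real.log n) ^ 2 + 2 * Cm := by
    have h1 := sum_Ioc_consecutive (fun d : ℕ => ArithmeticFunction.vonMangoldt d / (d : ℝ))
      (Nat.zero_le D) hDy
    have h2 := hM y (le_trans hD1 hDy)
    have h3 := hM D hD1
    rw [hIcc] at h2 h3
    have h4 := (abs_le.1 h2).2
    have h5 := (abs_le.1 h3).1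
    have h6 : Real.log y ≤ Real.log 4 + Real.log Q + Real.log D := by
      have h7 : (y : ℝ) ≤ 4 * Q * D := by exact_mod_cast hyQ
      have h8 : (0 : ℝ) < y := by exact_mod_cast (lt_of_lt_of_le hD1 hDy)
      have hQr : (0 : ℝ) < Q := by exact_mod_cast hQ1
      have hDr : (0 : ℝ) < D := by exact_mod_cast hD1
      have h9 := Real.log_le_log h8 h7
      rw [Real.log_mul (by positivity) (by positivity), Real.log_mul (by norm_num)
        (by positivity)] at h9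
      exact h9
    linarith
  have hsum3 : ∑ d ∈ Ioc D y, ArithmeticFunction.vonMangoldt d ≤ 12 * ((2 : ℝ) ^ j / m) := by
    have h1 : ∑ d ∈ Ioc D y, ArithmeticFunction.vonMangoldt d ≤
        ∑ d ∈ Ioc 0 y, ArithmeticFunction.vonMangoldt d := by
      apply sum_le_sum_of_subset_of_nonneg
      · intro t ht
        rw [mem_Ioc] at ht ⊢
        omega
      · intro t _ _
        exact ArithmeticFunction.vonMangoldt_nonneg
    have h2 := Chebyshev.psi_le_const_mul_self (x := (y : ℝ)) (by positivity)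
    unfold Chebyshev.psi at h2
    rw [Nat.floor_natCast] at h2
    have h3 : Real.log 4 < 2 := by
      have h4 : (4 : ℝ) = 2 ^ 2 := by norm_num
      rw [h4, Real.log_pow]
      have := Real.log_two_lt_d9
      push_cast
      linarith
    have h5 : (0 : ℝ) ≤ y := Nat.cast_nonneg _
    nlinarith
  have hlog4 : Real.log 4 < 2 := by
    have h4 : (4 : ℝ) = 2 ^ 2 := by norm_num
    rw [h4, Real.log_pow]
    have := Real.log_two_lt_d9
    push_cast
    linarith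
  have hone : 1 ≤ (1 + Real.log n) ^ 2 := by nlinarith
  have hCC : 12302 + 2 * Cm ≤ ((⌈12302 + 2 * Cm⌉₊ + 1 : ℕ) : ℝ) := by
    push_cast
    have := Nat.le_ceil (12302 + 2 * Cm)
    linarith
  calc ∑ d ∈ Ioc D y, ArithmeticFunction.vonMangoldt d * (Ad m (n ^ 16) j d : ℝ)
      ≤ (2 : ℝ) ^ j / m * ∑ d ∈ Ioc D y, ArithmeticFunction.vonMangoldt d / d +
        ∑ d ∈ Ioc D y, ArithmeticFunction.vonMangoldt d := hsum1
    _ ≤ (2 : ℝ) ^ j / m * (Real.log 4 + 12288 * (1 + Real.log n) ^ 2 + 2 * Cm) +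
        12 * ((2 : ℝ) ^ j / m) :=
      add_le_add (mul_le_mul_of_nonneg_left hsum2 hX.le) hsum3
    _ = (2 : ℝ) ^ j / m * (Real.log 4 + 12288 * (1 + Real.log n) ^ 2 + 2 * Cm + 12) := by ring
    _ ≤ (2 : ℝ) ^ j / m * ((12302 + 2 * Cm) * (1 + Real.log n) ^ 2) := by
      apply mul_le_mul_of_nonneg_left _ hX.le
      nlinarith
    _ ≤ (2 : ℝ) ^ j / m * (((⌈12302 + 2 * Cm⌉₊ + 1 : ℕ) : ℝ) * (1 + Real.log n) ^ 2) := by
      apply mul_le_mul_of_nonneg_left _ hX.le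
      exact mul_le_mul_of_nonneg_right hCC (by positivity)

end Pool.Agent.Helper1.ES.Z
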