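import Pool.Agent.Helper1.ES.Defs
import Pool.Agent.Helper1.ES.St.N4a
import Pool.Agent.Helper1.ES.Z.Q3

/-!
Lower bound for the number of rough integers in the progression.
-/

set_option autoImplicit false

namespace Pool.Agent.Helper1.ES.Z

open Finset

theorem AA_lower : ∃ n₀ : ℕ, ∀ n : ℕ, n₀ ≤ n → ∀ j : ℕ, 40 * n ≤ j → j < 80 * n →
    ∀ m : ℕ, 2 ≤ m → m ≤ 2 ^ (5 * n) →
    (2 : ℝ) ^ j / m * (V m (n ^ 16) - 1 / (n : ℝ) ^ 8) ≤ ((AA m (n ^ 16) j).card : ℝ) := by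
  obtain ⟨n₀, hn₀, hbig⟩ := q3_big
  refine ⟨max n₀ 2, fun n hn j hj1 hj2 m hm1 hm2 => ?_⟩
  have hnn₀ : n₀ ≤ n := le_trans (le_max_left _ _) hn
  have hn2 : 2 ≤ n := le_trans (le_max_right _ _) hn
  have hb := hbig n hnn₀
  obtain ⟨z, hz⟩ : ∃ z, z = n ^ 16 := ⟨_, rfl⟩
  rw [← hz] at hb ⊢
  have hzn : n ≤ z := by
    rw [hz]
    exact Nat.le_self_pow (by norm_num) n
  have hz2 : 2 ≤ z := by omega
  have hcop : Nat.Coprime (m - 1) m := by
    have h := Nat.coprime_self_add_right (m := m - 1) (n := 1)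
    rw [Nat.sub_add_cancel (by omega : 1 ≤ m)] at h
    exact h.2 (Nat.coprime_one_right _)
  have hAR : AA m z j = RC m (m - 1) z (2 ^ j) (2 ^ j) := by
    ext q
    rw [mem_AA, mem_RC]
    have e1 : (2 ^ j + 2 ^ j : ℕ) = 2 ^ (j + 1) := by rw [pow_succ]; ring
    rw [e1]
    apply and_congr_right
    intro _
    apply and_congr_left
    intro _
    constructor
    · intro h
      have h1 : q + 1 ≡ (m - 1) + 1 [MOD m] := by
        rw [Nat.sub_add_cancel (by omega : 1 ≤ m)]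
        exact ((Nat.modEq_zero_iff_dvd).2 h).trans ((Nat.modEq_zero_iff_dvd).2 dvd_rfl).symm
      exact Nat.ModEq.add_right_cancel' 1 h1
    · intro h
      have h1 : q + 1 ≡ (m - 1) + 1 [MOD m] := Nat.ModEq.add_right 1 h
      rw [Nat.sub_add_cancel (by omega : 1 ≤ m)] at h1
      exact (Nat.modEq_zero_iff_dvd).1 (h1.trans ((Nat.modEq_zero_iff_dvd).2 dvd_rfl))
  have hbrun := brun m (m - 1) z (2 ^ j) (2 ^ j) (by omega) hcop hz2
  rw [← hAR] at hbrun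
  push_cast at hbrun
  have h1 := (abs_le.1 hbrun).1
  have hm0 : (0 : ℝ) < m := by exact_mod_cast (by omega : 0 < m)
  set P : ℝ := (2 : ℝ) ^ j / m with hP
  have hP0 : 0 < P := by positivity
  set F : ℝ := ((z : ℝ) + 1) ^ (16 * (1 + Nat.log 2 z)) with hF
  have hzR : (2 : ℝ) ≤ z := by exact_mod_cast hz2
  have hF0 : 0 < F := by positivity
  have hF2 : F * F ≤ P := by
    have h2 : ((((z + 1) ^ (32 * (1 + Nat.log 2 z)) : ℕ)) : ℝ) ≤ ((2 ^ (35 * n) : ℕ) : ℝ) := by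
      exact_mod_cast hb
    push_cast at h2
    have h3 : F * F = ((z : ℝ) + 1) ^ (32 * (1 + Nat.log 2 z)) := by
      rw [hF, ← pow_add]
      congr 1
      ring
    rw [h3, hP, le_div_iff₀ hm0]
    have h4 : (m : ℝ) ≤ 2 ^ (5 * n) := by exact_mod_cast hm2
    calc ((z : ℝ) + 1) ^ (32 * (1 + Nat.log 2 z)) * m ≤ 2 ^ (35 * n) * 2 ^ (5 * n) :=
          mul_le_mul h2 h4 hm0.le (by positivity)
      _ = 2 ^ (40 * n) := by rw [← pow_add]; congr 1; ring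
      _ ≤ 2 ^ j := pow_le_pow_right₀ (by norm_num) hj1
  have hz4 : (z : ℝ) ^ 4 ≤ F := by
    calc (z : ℝ) ^ 4 ≤ ((z : ℝ) + 1) ^ 4 := pow_le_pow_left₀ (by positivity) (by linarith) 4
      _ ≤ F := pow_le_pow_right₀ (by linarith) (by omega)
  have hFP : F ≤ P / (z : ℝ) ^ 4 := by
    rw [le_div_iff₀ (by positivity)]
    calc F * (z : ℝ) ^ 4 ≤ F * F := mul_le_mul_of_nonneg_left hz4 hF0.le
      _ ≤ P := hF2
  have hn8 : 2 * (P / (z : ℝ) ^ 4) ≤ P * (1 / (n : ℝ) ^ 8) := by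
    have hnR : (2 : ℝ) ≤ n := by exact_mod_cast hn2
    have e2 : (z : ℝ) ^ 4 = (n : ℝ) ^ 8 * (n : ℝ) ^ 56 := by
      rw [hz]
      push_cast
      ring
    have h5 : (2 : ℝ) ≤ (n : ℝ) ^ 56 := by
      calc (2 : ℝ) ≤ n := hnR
        _ = (n : ℝ) ^ 1 := (pow_one _).symm
        _ ≤ (n : ℝ) ^ 56 := pow_le_pow_right₀ (by linarith) (by norm_num)
    rw [e2]
    rw [mul_one_div, ← mul_div_assoc, div_le_div_iff₀ (by positivity) (by positivity)]
    calc 2 * P * (n : ℝ) ^ 8 ≤ (n : ℝ) ^ 56 * P * (n : ℝ) ^ 8 := by gcongr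
      _ = P * ((n : ℝ) ^ 8 * (n : ℝ) ^ 56) := by ring
  have e3 : P * (V m z - 1 / (n : ℝ) ^ 8) = P * V m z - P * (1 / (n : ℝ) ^ 8) := by ring
  rw [e3]
  linarith

end Pool.Agent.Helper1.ES.Z
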