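import Pool.Agent.Helper1.ES.Defs
import Pool.Agent.Helper1.ES.St.N4a
import Pool.Agent.Helper1.ES.St.N4m

/-!
ES-Q2.  `z = n^4`, `F = (z+1)^{16(1+Nat.log 2 z)}`, `D1 = ⌊2^j / (m F^2)⌋`.  If `gcd(d, m) > 1` then `Ad = 0`.
Otherwise `q = d q'` with `q' ∈ (2^j/d, 2^{j+1}/d]`, `q' ≡ c' [MOD m]` where `d c' ≡ -1`, and `q'` is rough, so by
`brun` (interval from `⌊2^j/d⌋` of length `H = ⌊2^{j+1}/d⌋ - ⌊2^j/d⌋ ≤ 2^j/d + 1`)
`Ad ≤ (2^j/d + 1)/m (V + z^{-4}) + F`.  Sum with `Λ(d)`: `∑_{d ≤ D1} Λ(d)/d ≤ log D1 + C` (`mertens_L`),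
`∑_{d ≤ D1} Λ(d) ≤ C D1` (Mathlib Chebyshev), `log D1 ≤ log (2^j/m) ≤ 80 n`, `0 ≤ V ≤ 1`, `z^{-4} · 80 n ≤ 1`,
`D1 F ≤ 2^j / (m F)`, `D1 / m ≤ 2^j/m`.
-/

set_option autoImplicit false

namespace Pool.Agent.Helper1.ES.Z

open Finset

private theorem q2_V_nonneg (m z : ℕ) : 0 ≤ V m z := by
  unfold V
  refine prod_nonneg fun p hp => ?_
  have h1 : 1 ≤ p := (mem_filter.1 hp).2.1.one_le
  have h2 : (1 : ℝ) ≤ p := by exact_mod_cast h1
  have h3 : 1 / (p : ℝ) ≤ 1 := by
    rw [div_le_one (by linarith)]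
    exact h2
  linarith

private theorem q2_V_le_one (m z : ℕ) : V m z ≤ 1 := by
  unfold V
  refine prod_le_one (fun p hp => ?_) (fun p hp => ?_)
  · have h1 : 1 ≤ p := (mem_filter.1 hp).2.1.one_le
    have h2 : (1 : ℝ) ≤ p := by exact_mod_cast h1
    have h3 : 1 / (p : ℝ) ≤ 1 := by
      rw [div_le_one (by linarith)]
      exact h2
    linarith
  · have : (0 : ℝ) ≤ 1 / (p : ℝ) := by positivity
    linarith

/-- the number of multiples of `d` is at most the number of rough integers of one class -/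
private theorem q2_Ad_le {m z j d : ℕ} (hm : 2 ≤ m) (hz : 2 ≤ z) (hd : 1 ≤ d) :
    (Ad m z j d : ℝ) ≤ ((2 : ℝ) ^ j / d + 1) / m * (V m z + 1 / (z : ℝ) ^ 4) +
      ((z : ℝ) + 1) ^ (16 * (1 + Nat.log 2 z)) := by
  classical
  have hm0 : (0 : ℝ) < m := by
    have : 0 < m := by omega
    exact_mod_cast this
  have hd0 : (0 : ℝ) < d := by exact_mod_cast hd
  have hz0 : (0 : ℝ) < z := by
    have : 0 < z := by omega
    exact_mod_cast this
  have hV := q2_V_nonneg m z
  by_cases hcop : Nat.Coprime d m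
  · -- a class `c` with `m ∣ d c + 1`
    obtain ⟨c, hc⟩ : ∃ c : ℕ, m ∣ d * c + 1 := by
      have hm1 : 1 < m := by omega
      obtain ⟨e, he⟩ := Nat.exists_mul_mod_eq_one_of_coprime hcop hm1
      refine ⟨(m - 1) * e, ?_⟩
      have h1 : d * ((m - 1) * e) + 1 ≡ 0 [MOD m] := by
        have h2 : d * e ≡ 1 [MOD m] := by
          unfold Nat.ModEq
          rw [he.2, Nat.mod_eq_of_lt hm1]
        have h3 : d * ((m - 1) * e) = (m - 1) * (d * e) := by ring
        rw [h3]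
        calc (m - 1) * (d * e) + 1 ≡ (m - 1) * 1 + 1 [MOD m] := (h2.mul_left _).add_right _
          _ = m := by omega
          _ ≡ 0 [MOD m] := by simp [Nat.ModEq]
      exact (Nat.modEq_zero_iff_dvd).1 h1
    have hcm : Nat.Coprime c m := by
      rw [Nat.coprime_iff_gcd_eq_one]
      have h1 : Nat.gcd c m ∣ d * c + 1 := (Nat.gcd_dvd_right c m).trans hc
      have h2 : Nat.gcd c m ∣ d * c := (Nat.gcd_dvd_left c m).mul_left d
      exact Nat.dvd_one.1 ((Nat.dvd_add_right h2).1 h1)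
    have hle : 2 ^ j / d ≤ 2 ^ (j + 1) / d :=
      Nat.div_le_div_right (Nat.pow_le_pow_right (by norm_num) (by omega))
    set H := 2 ^ (j + 1) / d - 2 ^ j / d with hH
    have hXH : 2 ^ j / d + H = 2 ^ (j + 1) / d := by omega
    have hcard : Ad m z j d ≤ (RC m c z (2 ^ j / d) H).card := by
      unfold Ad
      refine card_le_card_of_injOn (fun q => q / d) ?_ ?_
      · intro q hq
        rw [mem_coe, mem_filter, mem_AA] at hq
        obtain ⟨⟨⟨hq1, hq2⟩, hmq, hr⟩, hdq⟩ := hq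
        obtain ⟨q', rfl⟩ := hdq
        simp only
        rw [mem_coe, Nat.mul_div_cancel_left _ hd, mem_RC, hXH]
        refine ⟨⟨?_, ?_⟩, ?_, ?_⟩
        · rw [Nat.div_lt_iff_lt_mul hd, mul_comm]
          exact hq1
        · rw [Nat.le_div_iff_mul_le hd, mul_comm]
          exact hq2
        · -- congruence
          have h1 : d * q' + 1 ≡ d * c + 1 [MOD m] := by
            have h2 : d * q' + 1 ≡ 0 [MOD m] := (Nat.modEq_zero_iff_dvd).2 hmq
            have h3 : d * c + 1 ≡ 0 [MOD m] := (Nat.modEq_zero_iff_dvd).2 hc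
            exact h2.trans h3.symm
          have h2 : d * q' ≡ d * c [MOD m] := Nat.ModEq.add_right_cancel' 1 h1
          exact Nat.ModEq.cancel_left_of_coprime (by
            rw [Nat.gcd_comm]; exact hcop) h2
        · intro p hp hpq
          exact hr p hp (hpq.mul_left d)
      · intro q hq q' hq' h
        rw [mem_coe, mem_filter] at hq hq'
        simp only at h
        rw [← Nat.mul_div_cancel' hq.2, h, Nat.mul_div_cancel' hq'.2]
    have hb := brun m c z (2 ^ j / d) H (by omega) hcm hz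
    have hb' := (abs_le.1 hb).2
    have hHle : (H : ℝ) ≤ (2 : ℝ) ^ j / d + 1 := by
      have h1 : ((2 ^ (j + 1) / d : ℕ) : ℝ) ≤ (2 : ℝ) ^ (j + 1) / d := by
        have := @Nat.cast_div_le ℝ _ _ _ (2 ^ (j + 1)) d
        push_cast at this
        exact this
      have h2 : (2 : ℝ) ^ j / d < ((2 ^ j / d : ℕ) : ℝ) + 1 := by
        rw [div_lt_iff₀ hd0]
        have h3 : 2 ^ j < (2 ^ j / d + 1) * d := by
          have := Nat.lt_div_mul_add (a := 2 ^ j) (b := d) hd
          linarith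
        exact_mod_cast h3
      have h3 : (H : ℝ) = ((2 ^ (j + 1) / d : ℕ) : ℝ) - ((2 ^ j / d : ℕ) : ℝ) := by
        rw [hH, Nat.cast_sub hle]
      rw [h3]
      have h4 : (2 : ℝ) ^ (j + 1) / d = (2 : ℝ) ^ j / d + (2 : ℝ) ^ j / d := by
        rw [pow_succ]; ring
      linarith
    have h5 : (H : ℝ) / m * (V m z + 1 / (z : ℝ) ^ 4) ≤
        ((2 : ℝ) ^ j / d + 1) / m * (V m z + 1 / (z : ℝ) ^ 4) := by
      gcongr
    have h6 : (H : ℝ) / m * (V m z + 1 / (z : ℝ) ^ 4) =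
        (H : ℝ) / m * V m z + (H : ℝ) / m / (z : ℝ) ^ 4 := by
      ring
    have h7 : (Ad m z j d : ℝ) ≤ ((RC m c z (2 ^ j / d) H).card : ℝ) := by exact_mod_cast hcard
    linarith
  · -- no multiples at all
    have h0 : Ad m z j d = 0 := by
      unfold Ad
      rw [card_eq_zero, filter_eq_empty_iff]
      intro q hq hdq
      apply hcop
      rw [mem_AA] at hq
      have hmq := hq.2.1
      rw [Nat.coprime_iff_gcd_eq_one]
      have h1 : Nat.gcd d m ∣ q + 1 := (Nat.gcd_dvd_right d m).trans hmq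
      have h2 : Nat.gcd d m ∣ q := (Nat.gcd_dvd_left d m).trans hdq
      exact Nat.dvd_one.1 ((Nat.dvd_add_right h2).1 h1)
    rw [h0]
    simp only [Nat.cast_zero]
    positivity

private theorem q2_psi_le (D : ℕ) :
    ∑ d ∈ Icc 1 D, ArithmeticFunction.vonMangoldt d ≤ (Real.log 4 + 4) * D := by
  have h := Chebyshev.psi_le_const_mul_self (x := (D : ℝ)) (Nat.cast_nonneg D)
  rw [Chebyshev.psi, Nat.floor_natCast] at h
  have e : Icc 1 D = Ioc 0 D := by
    ext x
    rw [mem_Icc, mem_Ioc]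
    omega
  rw [e]
  exact h

theorem small_d : ∃ C n₀ : ℕ, 1 ≤ C ∧ ∀ n : ℕ, n₀ ≤ n → ∀ j : ℕ, 40 * n ≤ j → j < 80 * n →
    ∀ m : ℕ, 2 ≤ m → m ≤ 2 ^ (5 * n) →
    ∑ d ∈ Icc 1 (D1 m (n ^ 16) j), ArithmeticFunction.vonMangoldt d * (Ad m (n ^ 16) j d : ℝ) ≤
      (2 : ℝ) ^ j / m * (V m (n ^ 16) * Real.log ((2 : ℝ) ^ j / m) + C) := by
  obtain ⟨C1, hC1, hM⟩ := mertens_L
  refine ⟨⌈2 * C1 + 80 + 2 * (Real.log 4 + 4)⌉₊ + 1, 2, by omega, ?_⟩
  intro n hn j hj1 hj2 m hm1 hm2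
  set C : ℕ := ⌈2 * C1 + 80 + 2 * (Real.log 4 + 4)⌉₊ + 1 with hCdef
  have hl4 : 0 ≤ Real.log 4 := Real.log_nonneg (by norm_num)
  have hC : 2 * C1 + 80 + 2 * (Real.log 4 + 4) ≤ (C : ℝ) := by
    have := Nat.le_ceil (2 * C1 + 80 + 2 * (Real.log 4 + 4))
    rw [hCdef]
    push_cast
    linarith
  set z : ℕ := n ^ 16 with hz
  have hz2 : 2 ≤ z := by
    calc 2 ≤ n := hn
      _ = n ^ 1 := (pow_one n).symm
      _ ≤ n ^ 16 := Nat.pow_le_pow_right (by omega) (by norm_num)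
  set F : ℝ := ((z : ℝ) + 1) ^ (16 * (1 + Nat.log 2 z)) with hF
  have hzr : (2 : ℝ) ≤ z := by exact_mod_cast hz2
  have hF1 : 1 ≤ F := one_le_pow₀ (by linarith)
  have hF0 : 0 < F := by linarith
  have hmr : (2 : ℝ) ≤ m := by exact_mod_cast hm1
  have hm0 : (0 : ℝ) < m := by linarith
  have hV0 := q2_V_nonneg m z
  have hV1 := q2_V_le_one m z
  set V0 : ℝ := V m z with hV0def
  set P : ℝ := (2 : ℝ) ^ j / m with hP
  have hP1 : 1 ≤ P := by
    rw [hP, le_div_iff₀ hm0, one_mul]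
    have h1 : m ≤ 2 ^ j := hm2.trans (Nat.pow_le_pow_right (by norm_num) (by omega))
    exact_mod_cast h1
  have hP0 : 0 < P := by linarith
  have hlogP : 0 ≤ Real.log P := Real.log_nonneg hP1
  have hlogP80 : Real.log P ≤ 80 * n := by
    have h1 : P ≤ (2 : ℝ) ^ j := by
      rw [hP]
      exact div_le_self (by positivity) (by linarith)
    have h2 : Real.log P ≤ Real.log ((2 : ℝ) ^ j) := Real.log_le_log hP0 h1
    rw [Real.log_pow] at h2
    have h3 : Real.log 2 ≤ 1 := by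
      have := Real.log_two_lt_d9
      linarith
    have h4 : (j : ℝ) ≤ 80 * n := by
      have : j ≤ 80 * n := hj2.le
      exact_mod_cast this
    have h5 : (j : ℝ) * Real.log 2 ≤ j * 1 := mul_le_mul_of_nonneg_left h3 (Nat.cast_nonneg j)
    linarith
  set D : ℕ := D1 m z j with hD
  -- the cut-off
  have hDle : (D : ℝ) * F ^ 2 ≤ P := by
    have h1 : (D : ℝ) ≤ ((2 ^ j : ℕ) : ℝ) / ((m * (z + 1) ^ (32 * (1 + Nat.log 2 z)) : ℕ) : ℝ) := by
      rw [hD, D1]
      exact Nat.cast_div_le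
    have h2 : ((m * (z + 1) ^ (32 * (1 + Nat.log 2 z)) : ℕ) : ℝ) = m * F ^ 2 := by
      rw [hF]
      push_cast
      rw [← pow_mul]
      congr 2
      ring
    rw [h2] at h1
    push_cast at h1
    have h3 : (0 : ℝ) < m * F ^ 2 := by positivity
    rw [le_div_iff₀ h3] at h1
    rw [hP, le_div_iff₀ hm0]
    calc (D : ℝ) * F ^ 2 * m = D * (m * F ^ 2) := by ring
      _ ≤ 2 ^ j := h1
  have hDF : (D : ℝ) * F ≤ P := by
    have h1 : (D : ℝ) * F ≤ D * F ^ 2 := by
      have h2 : F ≤ F ^ 2 := by nlinarith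
      exact mul_le_mul_of_nonneg_left h2 (Nat.cast_nonneg D)
    linarith
  have hDP : (D : ℝ) ≤ P := by
    have h1 : (D : ℝ) * 1 ≤ D * F := mul_le_mul_of_nonneg_left hF1 (Nat.cast_nonneg D)
    linarith
  have hDnn : (0 : ℝ) ≤ D := Nat.cast_nonneg D
  have hlogD : Real.log D ≤ Real.log P := by
    rcases Nat.eq_zero_or_pos D with h0 | h0
    · rw [h0]
      simpa using hlogP
    · exact Real.log_le_log (by exact_mod_cast h0) hDP
  -- W = V + z^{-4}
  set W : ℝ := V0 + 1 / (z : ℝ) ^ 4 with hW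
  have hz4 : (0 : ℝ) < 1 / (z : ℝ) ^ 4 := by positivity
  have hz4' : 1 / (z : ℝ) ^ 4 * (80 * n) ≤ 80 := by
    have h1 : (n : ℝ) ≤ (z : ℝ) ^ 4 := by
      have : n ≤ z ^ 4 := by
        rw [hz, ← pow_mul]
        exact Nat.le_self_pow (by norm_num) n
      exact_mod_cast this
    rw [div_mul_eq_mul_div, one_mul, div_le_iff₀ (by positivity)]
    linarith
  have hz41 : 1 / (z : ℝ) ^ 4 ≤ 1 := by
    rw [div_le_one (by positivity)]
    exact one_le_pow₀ (by linarith)
  have hW0 : 0 ≤ W := by linarith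
  have hW2 : W ≤ 2 := by linarith
  -- the sum
  have hLam : ∀ d : ℕ, 0 ≤ ArithmeticFunction.vonMangoldt d := fun d =>
    ArithmeticFunction.vonMangoldt_nonneg
  have hstep : ∑ d ∈ Icc 1 D, ArithmeticFunction.vonMangoldt d * (Ad m z j d : ℝ) ≤
      P * W * ∑ d ∈ Icc 1 D, ArithmeticFunction.vonMangoldt d / d +
        (W / m + F) * ∑ d ∈ Icc 1 D, ArithmeticFunction.vonMangoldt d := by
    rw [mul_sum, mul_sum, ← sum_add_distrib]
    refine sum_le_sum fun d hd => ?_
    rw [mem_Icc] at hd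
    have h1 := q2_Ad_le (m := m) (z := z) (j := j) (d := d) hm1 hz2 hd.1
    have hd0 : (0 : ℝ) < d := by
      have : 0 < d := hd.1
      exact_mod_cast this
    have h2 : P * W * (ArithmeticFunction.vonMangoldt d / d) +
        (W / m + F) * ArithmeticFunction.vonMangoldt d =
        ArithmeticFunction.vonMangoldt d * (((2 : ℝ) ^ j / d + 1) / m * W + F) := by
      rw [hP]
      field_simp
      ring
    rw [h2]
    exact mul_le_mul_of_nonneg_left h1 (hLam d)
  have hpsi := q2_psi_le D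
  have hPC : (W / m + F) * ∑ d ∈ Icc 1 D, ArithmeticFunction.vonMangoldt d ≤
      P * (2 * (Real.log 4 + 4)) := by
    have h1 : W / m + F ≤ 2 * F := by
      have h2 : W / m ≤ 1 := by
        rw [div_le_one hm0]
        linarith
      linarith
    have h3 : 0 ≤ W / m + F := by positivity
    calc (W / m + F) * ∑ d ∈ Icc 1 D, ArithmeticFunction.vonMangoldt d
        ≤ (W / m + F) * ((Real.log 4 + 4) * D) := mul_le_mul_of_nonneg_left hpsi h3
      _ ≤ 2 * F * ((Real.log 4 + 4) * D) := by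
          apply mul_le_mul_of_nonneg_right h1
          positivity
      _ = (D * F) * (2 * (Real.log 4 + 4)) := by ring
      _ ≤ P * (2 * (Real.log 4 + 4)) := by
          apply mul_le_mul_of_nonneg_right hDF
          positivity
  rcases Nat.eq_zero_or_pos D with h0 | h0
  · rw [h0]
    simp only [zero_lt_one, Icc_eq_empty_of_lt, sum_empty]
    have : 0 ≤ V0 * Real.log P + C := by positivity
    positivity
  · have hMD := (abs_le.1 (hM D h0)).2
    have hsum : ∑ d ∈ Icc 1 D, ArithmeticFunction.vonMangoldt d / d ≤ Real.log P + C1 := by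
      linarith
    have hmain : W * (Real.log P + C1) ≤ V0 * Real.log P + (80 + 2 * C1) := by
      have h1 : 1 / (z : ℝ) ^ 4 * Real.log P ≤ 80 := by
        calc 1 / (z : ℝ) ^ 4 * Real.log P ≤ 1 / (z : ℝ) ^ 4 * (80 * n) :=
              mul_le_mul_of_nonneg_left hlogP80 hz4.le
          _ ≤ 80 := hz4'
      have h2 : W * C1 ≤ 2 * C1 := mul_le_mul_of_nonneg_right hW2 hC1
      have h3 : W * Real.log P = V0 * Real.log P + 1 / (z : ℝ) ^ 4 * Real.log P := by
        rw [hW]; ring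
      linarith
    calc ∑ d ∈ Icc 1 D, ArithmeticFunction.vonMangoldt d * (Ad m z j d : ℝ)
        ≤ P * W * ∑ d ∈ Icc 1 D, ArithmeticFunction.vonMangoldt d / d +
        (W / m + F) * ∑ d ∈ Icc 1 D, ArithmeticFunction.vonMangoldt d := hstep
      _ ≤ P * W * (Real.log P + C1) + P * (2 * (Real.log 4 + 4)) := by
          have : 0 ≤ P * W := by positivity
          exact add_le_add (mul_le_mul_of_nonneg_left hsum this) hPC
      _ = P * (W * (Real.log P + C1) + 2 * (Real.log 4 + 4)) := by ring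
      _ ≤ P * (V0 * Real.log P + C) := by
          apply mul_le_mul_of_nonneg_left _ hP0.le
          linarith

end Pool.Agent.Helper1.ES.Z
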